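import Pool.Agent.H62.WS.Final

set_option autoImplicit false

/-!
# The Weinstock inequality for bounded convex domains in hyperbolic space of every dimension `n ≥ 2`

`Hyp n` is hyperbolic space in the hyperboloid chart (`cosh d(x,y) = √(1+|x|²) √(1+|y|²) - ⟨x,y⟩`), `bd n` is the
`(n-1)`-dimensional Hausdorff measure of the hyperbolic metric, `sigma1` the first nonzero Steklov eigenvalue
(infimum of the Rayleigh quotients over the `C^1` functions with mean zero on the boundary).
-/

namespace Pool.Agent.Results.MP_ee2d7c_gt.HyperbolicWeinstock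

open Pool.Agent.H62.WS
open scoped RealInnerProductSpace MeasureTheory ENNReal NNReal
open MeasureTheory Set Metric

/-- Among the bounded geodesically convex domains of `H^n`, `n ≥ 2`, with given boundary measure the geodesic balls,
and only they, have the largest first nonzero Steklov eigenvalue. -/
theorem result (n : ℕ) (hn : 2 ≤ n) (Ω : Set (Hyp n)) (hΩ : IsOpen Ω)
    (hb : Bornology.IsBounded Ω) (hne : Ω.Nonempty) (hc : GeodConvex Ω) :
    0 < bd n (frontier Ω) ∧ bd n (frontier Ω) < ∞ ∧ (rayleigh Ω).Nonempty ∧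
    ∃ R : ℝ, 0 < R ∧
      (∀ p : Hyp n, bd n (frontier (ball p R)) = bd n (frontier Ω)) ∧
      (∀ (p : Hyp n) (S : ℝ), 0 < S → bd n (frontier (ball p S)) = bd n (frontier Ω) → S = R) ∧
      (∀ p : Hyp n, (rayleigh (ball p R)).Nonempty ∧ 0 < sigma1 (ball p R)) ∧
      (∀ p : Hyp n, sigma1 Ω ≤ sigma1 (ball p R)) ∧
      ∀ p : Hyp n, (sigma1 Ω = sigma1 (ball p R) ↔ ∃ (q : Hyp n) (S : ℝ), Ω = ball q S) := by
  obtain ⟨hpos, hfin, R, ⟨⟨hR, hRe⟩, hRs⟩, -⟩ := weinstock_convex hn hΩ hb hne hc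
  refine ⟨hpos, hfin, rayleigh_nonempty hn hb hpos hfin, R, hR, hRe, ?_, ?_, fun p => (hRs p).1,
    fun p => (hRs p).2⟩
  · intro p S hS h
    exact radius_eq hn (p := p) (q := p) hS hR (h.trans (hRe p).symm)
  · intro p
    exact ⟨rayleigh_nonempty hn isBounded_ball ((hRe p).symm ▸ hpos) ((hRe p).symm ▸ hfin),
      sigma1_ball_pos hn p hR⟩

end Pool.Agent.Results.MP_ee2d7c_gt.HyperbolicWeinstock
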