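import Pool.Agent.H32.SX.Final

set_option autoImplicit false

/-!
# The Weinstock inequality for all convex domains of the sphere `S^n`, `n ≥ 3`, of volume or perimeter at most that of
a ball of radius `arcsin √s`, `s = 1/8, 1/4, 1/3, 3/8, 2/5, 3/7` for `n = 3, 4, 5, 6, 7, ≥ 8`, and for all thin convex
domains

`Sp n` is the unit sphere `S^n` of `ℝ^(n+1)`, `sg (n+1)` its surface measure, `bs n` the `(n-1)`-dimensional Hausdorff
measure (Riemannian normalisation), `gball p R` the open geodesic ball, `sigma1` the first nonzero Steklov eigenvalue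
(infimum of the Rayleigh quotients over the restrictions of `C^1` functions of `ℝ^(n+1)` with mean zero on the
boundary), `GConvex` geodesic convexity. `Weinstock Ω` says that `0 < |∂Ω| < |S^(n-1)|`, that exactly one `R` in
`(0, π/2)` has `|∂B| = |∂Ω|` for the geodesic balls `B` of radius `R`, and that `σ₁(Ω) ≤ σ₁(B)` with equality if and
only if `Ω` is a geodesic ball. `Small Ω` and `Thin Ω` are the two conditions of the theorem (`H32/SX/KN.lean`).
-/

namespace Pool.Agent.Results.MP_ee2d7c_gt.SmallDomains

open Pool.Agent.H62.SS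
open scoped RealInnerProductSpace MeasureTheory ENNReal NNReal
open MeasureTheory Set Metric
open Pool.Agent.H62.WS (E sg cst)

/-- Let `Ω` be a geodesically convex domain of `S^n`, `n ≥ 3`, with closure in an open hemisphere. Suppose that
`|Ω| ≤ |B|` or `|∂Ω| ≤ |∂B|` for a geodesic ball `B` of radius `S` in `(0, π/2)` with `sin² S ≤ s`,
`s = 1/8, 1/4, 1/3, 3/8, 2/5, 3/7` for `n = 3, 4, 5, 6, 7, ≥ 8` (`Small`), or that `(24n)^3 |Ω| ≤ |∂Ω|` (`Thin`). Then
`σ₁(Ω) ≤ σ₁(Ω*)`, where `Ω*` is the ball of radius less than `π/2` with the same boundary measure, with equality only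
for the geodesic balls. (In the last condition the left hand side is multiplied by the measure `bs n` of a great
sphere and the right hand side by the total mass of `sg n`; both are `|S^(n-1)|`.) -/
theorem result (n : ℕ) (hn : 3 ≤ n) (Ω : Set (Sp n)) (hΩ : IsOpen Ω) (hne : Ω.Nonempty)
    (hc : GConvex Ω)
    (hw : ∃ w : Sp n, ∀ p ∈ closure Ω, 0 < ⟪(w : E (n + 1)), (p : E (n + 1))⟫)
    (hs : Pool.Agent.H32.SX.Small Ω ∨ Pool.Agent.H32.SX.Thin Ω) :
    Pool.Agent.H32.SV.Weinstock Ω :=
  Pool.Agent.H32.SX.weinstock_small_or_thin hn hΩ hne hc hw hs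

end Pool.Agent.Results.MP_ee2d7c_gt.SmallDomains
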