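import Pool.Agent.H32.SY.Def
import Pool.Agent.H62.SY.Main

set_option autoImplicit false

/-!
# The Weinstock inequality for convex domains of the sphere `S^n`, `n ≥ 3`, with symmetries, of any diameter

`Sp n` is the unit sphere `S^n` of `ℝ^(n+1)`, `sg (n+1)` its surface measure, `bs n` the `(n-1)`-dimensional Hausdorff
measure (Riemannian normalisation), `gball p R` the open geodesic ball, `Fix Ω v` says that the vector `v` is fixed by
all linear isometries that preserve `Ω`, `sigma1` is the first nonzero Steklov eigenvalue (infimum of the Rayleigh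
quotients over the restrictions of `C^1` functions of `ℝ^(n+1)` with mean zero on the boundary), `GConvex` geodesic
convexity. `Weinstock Ω` says that `0 < |∂Ω| < |S^(n-1)|`, that exactly one `R` in `(0, π/2)` has `|∂B| = |∂Ω|` for the
geodesic balls `B` of radius `R`, and that `σ₁(Ω) ≤ σ₁(B)` with equality if and only if `Ω` is a geodesic ball.
-/

namespace Pool.Agent.Results.MP_ee2d7c_gt.SymmetricDomains

open Pool.Agent.H62.SS
open scoped RealInnerProductSpace MeasureTheory ENNReal NNReal
open MeasureTheory Set Metric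
open Pool.Agent.H62.WS (E sg cst)

/-- Let `Ω` be a geodesically convex domain of `S^n`, `n ≥ 3`, with closure in an open hemisphere, and consider the
linear isometries of `ℝ^(n+1)` that preserve `Ω`. Suppose that the vectors fixed by all of them are multiples of one
vector (for instance `Ω` is symmetric about a point), or that every point of `Ω` fixed by all of them has distance less
than `π/2` from every point of the closure of `Ω`. Suppose moreover that `|Ω| ≤ |B|` or `|∂Ω| ≤ |∂B|` for a ball `B` of
radius `π/4`. Then `σ₁(Ω) ≤ σ₁(Ω*)`, where `Ω*` is the ball of radius less than `π/2` with the same boundary measure,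
with equality only for the geodesic balls. -/
theorem result (n : ℕ) (hn : 3 ≤ n) (Ω : Set (Sp n)) (hΩ : IsOpen Ω) (hne : Ω.Nonempty)
    (hc : GConvex Ω)
    (hw : ∃ w : Sp n, ∀ p ∈ closure Ω, 0 < ⟪(w : E (n + 1)), (p : E (n + 1))⟫)
    (hs : (∃ c : E (n + 1), ∀ v : E (n + 1), Pool.Agent.H32.SY.Fix Ω v → ∃ t : ℝ, v = t • c) ∨
      ∀ q ∈ Ω, Pool.Agent.H32.SY.Fix Ω (q : E (n + 1)) → ∀ p ∈ closure Ω,
        0 < ⟪(q : E (n + 1)), (p : E (n + 1))⟫)
    (hV : ∃ p : Sp n, sg (n + 1) Ω ≤ sg (n + 1) (gball p (Real.pi / 4)) ∨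
      bs n (frontier Ω) ≤ bs n (frontier (gball p (Real.pi / 4)))) :
    Pool.Agent.H32.SV.Weinstock Ω := by
  have hpi := Real.pi_pos
  refine Pool.Agent.H62.SY.main_gen hn hΩ hne hc hw
    (G := {Φ : E (n + 1) ≃ₗᵢ[ℝ] E (n + 1) | act Φ '' Ω = Ω}) (fun Φ hΦ => hΦ) hs ?_
  obtain ⟨p, hV⟩ := hV
  refine hV.symm.imp (fun h => ?_) fun h => ?_
  · rw [frontier_gball (by omega) _ (by positivity) (by linarith),
      bs_gsph (by omega) _ (by positivity) (by linarith)] at h
    rw [bs_gsph (by omega) _ (by positivity) (by linarith)]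
    exact h
  · rw [sg_gball (by omega) _ (by positivity) (by linarith)] at h
    rw [sg_gball (by omega) _ (by positivity) (by linarith)]
    exact h

end Pool.Agent.Results.MP_ee2d7c_gt.SymmetricDomains
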